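import Mathlib

set_option autoImplicit false

namespace Pool.Agent.Results.MP_682377_al.Counter

open Function CategoryTheory TrivSqZeroExt Polynomial

/-- `E` is `n`-presented -/
def NPres (R : Type) [CommRing R] (n : ℕ) (E : Type) [AddCommGroup E] [Module R E] : Prop :=
  ∃ (r : ℕ → ℕ) (d : ∀ i, (Fin (r (i + 1)) → R) →ₗ[R] (Fin (r i) → R))
    (ε : (Fin (r 0) → R) →ₗ[R] E), Surjective ε ∧ (1 ≤ n → Exact (d 0) ε) ∧
    ∀ i, i + 2 ≤ n → Exact (d (i + 1)) (d i)

/-- weak `(n,d)`-ring in the sense of Mahdou -/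
def Weak (R : Type) [CommRing R] (n d : ℕ) : Prop :=
  ∀ I : Ideal R, NPres R n (R ⧸ I) → projectiveDimension (ModuleCat.of R (R ⧸ I)) ≤ d

/-- `M` has a finite resolution by finitely generated projective modules -/
def FPR (R : Type) [CommRing R] (M : ModuleCat.{0} R) : Prop :=
  ∃ (m : ℕ) (P : ℕ → ModuleCat.{0} R) (d : ∀ i, P (i + 1) →ₗ[R] P i) (ε : P 0 →ₗ[R] M),
    (∀ i, Module.Finite R (P i) ∧ Module.Projective R (P i)) ∧ (∀ i > m, Subsingleton (P i)) ∧
    Surjective ε ∧ Exact (d 0) ε ∧ ∀ i, Exact (d (i + 1)) (d i)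

/-- small finitistic dimension -/
noncomputable def fPD (R : Type) [CommRing R] : WithBot ℕ∞ :=
  ⨆ (M : ModuleCat.{0} R) (_ : FPR R M), projectiveDimension M

lemma fp {R : Type} [CommRing R] {n : ℕ} (hn : 2 ≤ n) (I : Ideal R) (h : NPres R n (R ⧸ I)) :
    Module.FinitePresentation R I := by
  obtain ⟨r, d, ε, h0, h1, h2⟩ := h
  have h1 := LinearMap.exact_iff.1 (h1 (by omega))
  have h2 := LinearMap.exact_iff.1 (h2 0 hn)
  have : Module.FinitePresentation R (LinearMap.range (d 0)) :=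
    Module.finitePresentation_of_surjective _ (d 0).surjective_rangeRestrict (by
      rw [LinearMap.ker_rangeRestrict, h2, LinearMap.range_eq_map]
      exact Module.Finite.fg_top.map _)
  rw [← h1] at this
  obtain ⟨s, hs⟩ := Module.projective_lifting_property I.mkQ ε I.mkQ_surjective
  have hs : ∀ x, Ideal.Quotient.mk I (s x) = ε x := fun x => LinearMap.congr_fun hs x
  obtain ⟨v, hv⟩ := h0 1
  have e : ∀ c : R, ε (c • v) = Ideal.Quotient.mk I c := fun c => by
    rw [map_smul, hv, Algebra.smul_def, mul_one]; rfl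
  let ρ : (LinearMap.ker ε × R) →ₗ[R] I := LinearMap.codRestrict I
    ((s ∘ₗ (LinearMap.ker ε).subtype).coprod (LinearMap.toSpanSingleton R R (1 - s v))) fun x =>
      Ideal.Quotient.eq_zero_iff_mem.1 (by simp [hs, hv])
  let σ : (Fin (r 0) → R) →ₗ[R] (LinearMap.ker ε × R) := (LinearMap.codRestrict _
    (LinearMap.id - s.smulRight v) fun x => by simp [e, hs, -map_smul]).prod (-s)
  refine Module.finitePresentation_of_surjective ρ (fun i => ⟨(⟨i.1 • v, by
    simp [e, -map_smul, Ideal.Quotient.eq_zero_iff_mem]⟩, i.1), by ext; simp [ρ]; ring⟩) ?_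
  suffices LinearMap.ker ρ = Submodule.map σ ⊤ from this ▸ Module.Finite.fg_top.map σ
  refine Submodule.ext fun ⟨x, y⟩ => ?_
  simp only [LinearMap.mem_ker, Submodule.map_top, LinearMap.mem_range]
  refine ⟨fun h => ⟨x - y • v, ?_⟩, ?_⟩
  · have : s x = -y * (1 - s v) := by
      have := congrArg Subtype.val h
      simp [ρ] at this
      linear_combination this
    ext <;> simp [σ, this] <;> ring
  · rintro ⟨z, h⟩
    rw [← h]
    ext
    simp [ρ, σ]; ring

section
variable {A E : Type} [CommRing A] [IsDomain A] [AddCommGroup E] [Module A E] [Module Aᵐᵒᵖ E]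
  [IsCentralScalar A E]

attribute [local instance 2000] Semiring.toNonAssocSemiring CommSemiring.toSemiring
  CommRing.toCommSemiring


def Good (A E : Type) [CommRing A] [AddCommGroup E] [Module A E] : Prop :=
  (∀ g : A, g ≠ 0 → ∀ T : Finset E, ∃ (π : E →ₗ[A] A ⧸ Ideal.span {g}) (δ : E), π δ = 1 ∧
    g • δ = 0 ∧ ∀ t ∈ T, π t = 0) ∧ ∀ e : E, ∃ g : A, g ≠ 0 ∧ g • e = 0

omit [IsDomain A] in
lemma step (H : Good A E) {k : ℕ} (l : (Fin k → (TrivSqZeroExt A E)) →ₗ[(TrivSqZeroExt A E)] (TrivSqZeroExt A E)) (h : (LinearMap.ker l).FG) (i : Fin k)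
    (g : A) (g0 : g ≠ 0) (hg : g ∣ (l (Pi.single i 1)).fst) : ∃ W V : Fin k → (TrivSqZeroExt A E),
      (∀ j, (V j).fst = 0) ∧ l (Pi.single i 1) + inl g * l W + l V = 0 := by
  classical
  obtain ⟨S, hS⟩ := h
  obtain ⟨π, δ, p1, p2, p3⟩ := H.1 g g0 (S.biUnion fun κ => Finset.univ.image fun j => (κ j).snd)
  have : ∀ κ ∈ LinearMap.ker l, ∃ κ' ∈ LinearMap.ker l, ∀ j,
      π (κ j).snd = Ideal.Quotient.mk _ (κ' j).fst := by
    intro κ hκ
    rw [← hS] at hκ
    induction hκ using Submodule.span_induction with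
    | mem x hx => exact ⟨0, by simp, fun j => by
        simpa using p3 _ (Finset.mem_biUnion.2 ⟨x, hx, by simp⟩)⟩
    | zero => exact ⟨0, by simp, by simp⟩
    | add x y _ _ h1 h2 =>
      obtain ⟨a, a1, a2⟩ := h1
      obtain ⟨b, b1, b2⟩ := h2
      exact ⟨a + b, add_mem a1 b1, fun j => by simp [a2, b2]⟩
    | smul c x hx h1 =>
      obtain ⟨a, a1, a2⟩ := h1
      obtain ⟨w, hw⟩ := Ideal.Quotient.mk_surjective (π c.snd)
      refine ⟨c • a + (inl w : (TrivSqZeroExt A E)) • x, add_mem (Submodule.smul_mem _ _ a1)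
        (Submodule.smul_mem _ _ (hS ▸ hx)), fun j => ?_⟩
      simp [snd_mul, a2, ← hw, Algebra.smul_def, mul_comm]
  obtain ⟨κ, h1, h2⟩ := this ((inr δ : (TrivSqZeroExt A E)) • Pi.single i 1) (by
    obtain ⟨c, hc⟩ := hg
    rw [LinearMap.mem_ker, map_smul]
    ext : 1 <;> simp [snd_mul, hc, mul_smul, p2])
  have : ∀ j, ∃ w, (κ j).fst = ((Pi.single i 1 : Fin k → (TrivSqZeroExt A E)) j).fst + g * w := fun j => by
    have := h2 j
    by_cases e : j = i
    · subst e
      obtain ⟨w, hw⟩ := Ideal.mem_span_singleton.1 (Ideal.Quotient.eq.1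
        (show Ideal.Quotient.mk _ (κ j).fst = Ideal.Quotient.mk _ 1 by simpa [p1] using this.symm))
      exact ⟨w, by simp [← hw]⟩
    · obtain ⟨w, hw⟩ := Ideal.mem_span_singleton.1 (Ideal.Quotient.eq_zero_iff_mem.1
        (show Ideal.Quotient.mk _ (κ j).fst = 0 by simpa [e] using this.symm))
      exact ⟨w, by simp [hw, e]⟩
  choose w hw using this
  refine ⟨fun j => inl (w j), κ - Pi.single i 1 - (inl g : (TrivSqZeroExt A E)) • fun j => inl (w j),
    fun j => by simp [hw], ?_⟩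
  simp [show l κ = 0 from h1]

lemma fst0 {S : Type} [CommRing S] {k : ℕ} (l : (Fin k → S) →ₗ[S] S) (V : Fin k → S) :
    l V = ∑ j, V j * l (Pi.single j 1) := by
  rw [LinearMap.pi_apply_eq_sum_univ]
  refine Finset.sum_congr rfl fun j _ => ?_
  congr 2
  ext; simp [Pi.single_apply, eq_comm]

lemma triv (H : Good A E) (I : Ideal (TrivSqZeroExt A E)) [Module.FinitePresentation (TrivSqZeroExt A E) I] : I = ⊥ ∨ I = ⊤ := by
  obtain ⟨k, l, hl⟩ := Module.Finite.exists_fin' (TrivSqZeroExt A E) I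
  have h := Module.FinitePresentation.fg_ker l hl
  rw [← LinearMap.ker_comp_of_ker_eq_bot _ I.ker_subtype] at h
  set L := I.subtype ∘ₗ l
  by_cases c : ∀ i, (L (Pi.single i 1)).fst = 0
  · choose g g0 hg using fun i => H.2 (L (Pi.single i 1)).snd
    have : ∀ i, L (Pi.single i 1) = 0 := fun i => by
      obtain ⟨W, V, h1, h2⟩ := step H L h i (∏ j, g j) (Finset.prod_ne_zero_iff.2 fun j _ => g0 j)
        (by simp [c])
      rw [fst0 L W, fst0 L V, Finset.mul_sum, Finset.sum_eq_zero, Finset.sum_eq_zero] at h2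
      · simpa using h2
      · exact fun j _ => by ext : 1 <;> simp [snd_mul, h1, c]
      · intro j _
        obtain ⟨u, hu⟩ := Finset.dvd_prod_of_mem g (Finset.mem_univ j)
        ext : 1
        · simp [c]
        · simp [snd_mul, c, hu, smul_comm _ (W j).fst, mul_comm (g j), mul_smul, hg]
    refine Or.inl (eq_bot_iff.2 fun x hx => ?_)
    obtain ⟨y, hy⟩ := hl ⟨x, hx⟩
    have e : L y = x := congrArg Subtype.val hy
    simp [← e, fst0 L y, this]
  · push Not at c
    obtain ⟨i, c⟩ := c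
    obtain ⟨W, V, h1, h2⟩ := step H L h i _ c dvd_rfl
    have := congrArg fst h2
    rw [fst0 L V] at this
    simp [fst_sum, h1] at this
    have : (L W).fst = -1 := mul_left_cancel₀ c (by linear_combination this)
    exact Or.inr (I.eq_top_of_isUnit_mem (l W).2 (isUnit_iff_isUnit_fst.2 (this ▸ isUnit_one.neg)))

lemma pos {S : Type} [CommRing S] (x y : S) (inj : ∀ a, a * x = 0 → a * y = 0 → a = 0)
    (H : ∀ a b, (x * a + y * b) * y ≠ y) : 0 < fPD S := by
  let v : S × S := (x, y)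
  let φ := LinearMap.toSpanSingleton S _ v
  have inj : Injective φ := (injective_iff_map_eq_zero _).2 fun a h =>
    inj a (congrArg Prod.fst h) (congrArg Prod.snd h)
  refine lt_of_lt_of_le ?_ (le_iSup₂_of_le (.of S ((S × S) ⧸ LinearMap.range φ)) ⟨1,
    fun | 0 => .of S (S × S) | 1 => .of S S | _ + 2 => .of S PUnit,
    fun | 0 => φ | _ + 1 => 0, Submodule.mkQ _,
    fun | 0 => ⟨inferInstance, inferInstance⟩ | 1 => ⟨inferInstance, inferInstance⟩
        | _ + 2 => ⟨inferInstance, inferInstance⟩,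
    fun | 0 => by simp | 1 => by simp | _ + 2 => fun _ => inferInstanceAs (Subsingleton PUnit),
    Submodule.mkQ_surjective _, LinearMap.exact_map_mkQ_range φ,
    fun | 0 => (LinearMap.exact_zero_iff_injective _ _).2 inj
        | _ + 1 => fun _ => ⟨fun _ => ⟨0, rfl⟩, fun _ => rfl⟩⟩ le_rfl)
  rw [← not_le, ← Nat.cast_zero, projectiveDimension_le_iff,
    ← projective_iff_hasProjectiveDimensionLE_zero, ← IsProjective.iff_projective]
  intro h
  obtain ⟨s, hs⟩ := Module.projective_lifting_property _ LinearMap.id (LinearMap.range φ).mkQ_surjective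
  have t : ∀ z, ∃ c : S, c • v = z - s ((LinearMap.range φ).mkQ z) := fun z =>
    (Submodule.Quotient.eq _).1 (LinearMap.congr_fun hs _).symm
  obtain ⟨a, ha⟩ := t (1, 0)
  obtain ⟨b, hb⟩ := t (0, 1)
  have : (x * a + y * b) • v = v := by
    have : s ((LinearMap.range φ).mkQ v) = 0 := by
      rw [Submodule.mkQ_apply, (Submodule.Quotient.mk_eq_zero _).2 (LinearMap.mem_range.2 ⟨1, one_smul _ _⟩), map_zero]
    rw [add_smul, mul_smul, mul_smul, ha, hb, smul_sub, smul_sub, sub_add_sub_comm, ← map_smul,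
      ← map_smul, ← map_smul, ← map_smul, ← map_add, ← map_add,
      show x • ((1, 0) : S × S) + y • (0, 1) = v by simp [v], this, sub_zero]
  exact H a b (congrArg Prod.snd this)

lemma main (H : Good A E) (x y : A) (y0 : y ≠ 0) (h1 : ∀ e : E, x • e = 0 → y • e = 0 → e = 0)
    (h2 : ∀ a b, x * a + y * b ≠ 1) : (∀ n ≥ 2, Weak (TrivSqZeroExt A E) n 0) ∧ 0 < fPD (TrivSqZeroExt A E) := by
  refine ⟨fun n hn I hI => ?_, pos (inl x) (inl y) (fun a p q => ?_) fun a b h => h2 a.fst b.fst ?_⟩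
  · rw [projectiveDimension_le_iff, ← projective_iff_hasProjectiveDimensionLE_zero,
      ← IsProjective.iff_projective]
    have := fp hn I hI
    rcases triv H I with rfl | rfl
    · exact .of_equiv (Submodule.quotEquivOfEqBot _ rfl).symm
    · infer_instance
  · ext
    · simpa [y0] using congrArg fst q
    · exact h1 _ (by simpa using congrArg snd p) (by simpa using congrArg snd q)
  · simpa [y0] using congrArg fst h

end

lemma main' {A E : Type} [CommRing A] [IsDomain A] [AddCommGroup E] [Module A E]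
    (H : Good A E) (x y : A) (y0 : y ≠ 0) (h1 : ∀ e : E, x • e = 0 → y • e = 0 → e = 0)
    (h2 : ∀ a b, x * a + y * b ≠ 1) :
    ∃ (R : Type) (_ : CommRing R), (∀ n ≥ 2, Weak R n 0) ∧ 0 < fPD R :=
  let _ : Module Aᵐᵒᵖ E := Module.compHom E ((RingHom.id A).fromOpposite mul_comm)
  have : IsCentralScalar A E := ⟨fun _ _ => rfl⟩
  ⟨_, _, main H x y y0 h1 h2⟩

abbrev E (A : Type) [CommRing A] := Π₀ l : {g : A // g ≠ 0} × ℕ, A ⧸ Ideal.span {l.1.1}

lemma good (A : Type) [CommRing A] [IsDomain A] : Good A (E A) := by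
  classical
  refine ⟨fun g g0 T => ?_, fun e => ?_⟩
  · obtain ⟨n, hn⟩ := Infinite.exists_notMem_finset ((T.biUnion DFinsupp.support).image Prod.snd)
    refine ⟨DFinsupp.lapply ((⟨g, g0⟩, n) : {g : A // g ≠ 0} × ℕ), DFinsupp.single (⟨g, g0⟩, n) 1,
      DFinsupp.single_eq_same, ?_,
      fun t ht => by_contra fun c => hn (Finset.mem_image.2 ⟨(⟨g, g0⟩, n), ?_, rfl⟩)⟩
    · rw [← DFinsupp.single_smul, Algebra.smul_def]; simp
    · exact Finset.mem_biUnion.2 ⟨t, ht, DFinsupp.mem_support_iff.2 c⟩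
  · refine ⟨∏ l ∈ e.support, l.1.1, Finset.prod_ne_zero_iff.2 fun l _ => l.1.2, ?_⟩
    ext l
    by_cases h : l ∈ e.support
    · have := Ideal.Quotient.eq_zero_iff_mem.2 (Ideal.mem_span_singleton.2
        (Finset.dvd_prod_of_mem (fun l : {g : A // g ≠ 0} × ℕ => l.1.1) h))
      rw [DFinsupp.smul_apply, Algebra.smul_def, Ideal.Quotient.algebraMap_eq, this, zero_mul]
      rfl
    · rw [DFinsupp.smul_apply, DFinsupp.notMem_support_iff.1 h]; simp

lemma cop {A : Type} [CommRing A] {x y : A} (h : ∀ g w, g ≠ 0 → g ∣ x * w → g ∣ y * w → g ∣ w)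
    (e : E A) (h1 : x • e = 0) (h2 : y • e = 0) : e = 0 := by
  ext l
  obtain ⟨w, hw⟩ := Ideal.Quotient.mk_surjective (e l)
  have t : ∀ c : A, c • e = 0 → l.1.1 ∣ c * w := fun c h => by
    rw [← Ideal.mem_span_singleton, ← Ideal.Quotient.eq_zero_iff_mem, map_mul, hw]
    exact congrArg (fun z : E A => z l) h
  rw [← hw, DFinsupp.zero_apply, Ideal.Quotient.eq_zero_iff_mem, Ideal.mem_span_singleton]
  exact h _ _ l.1.2 (t x h1) (t y h2)

theorem result : ∃ (R : Type) (_ : CommRing R), (∀ n ≥ 2, Weak R n 0) ∧ 0 < fPD R := by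
  refine main' (good ℤ[X]) 2 X X_ne_zero (cop ?_) fun a b h => ?_
  · rintro g w g0 ⟨p, hp⟩ ⟨q, hq⟩
    obtain ⟨q, rfl⟩ : X ∣ q := (prime_X.dvd_or_dvd (a := 2) ⟨p, mul_left_cancel₀ g0
      (by linear_combination X * hp - 2 * hq)⟩).resolve_left (by simp [X_dvd_iff])
    exact ⟨q, mul_left_cancel₀ X_ne_zero (by linear_combination hq)⟩
  · have := congrArg (Polynomial.eval 0) h
    simp at this
    omega

end Pool.Agent.Results.MP_682377_al.Counter
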